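import Pool.Agent.Q9.FJV.Verb
import Pool.Agent.Q293.TreeEmb

/-!
# Verbal quotients of groups acting on trees, and of free groups
-/

set_option autoImplicit false

namespace Q9.FJV

open Pool.Agent.Y110.FJ (ClosedE)
open Pool.Agent.Y462.SS (Closed)
open Pool.Agent.Q293.HP SimpleGraph

variable {W : Set (FreeGroup ℕ)} {C : ∀ (G : Type) [Group G], Prop}

section Tree

variable {G Q V : Type} [Group G] [Group Q] [MulAction G V] {T : SimpleGraph V} (ρ : G →* Q)

/-- an equivariant map from the vertices to the kernel, which acts freely -/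
theorem exists_trans (hρ : ∀ (g : G) (v : V), g • v = v → ρ g = 1 → g = 1) :
    ∃ c : V → ρ.ker, ∀ (k : ρ.ker) (v : V), c ((k : G) • v) = k * c v := by
  classical
  let b : V → V := fun v => (Quotient.mk (MulAction.orbitRel ρ.ker V) v).out
  have hb : ∀ v, ∃ k : ρ.ker, k • b v = v := by
    intro v
    have h1 : (MulAction.orbitRel ρ.ker V) (b v) v := Quotient.exact (Quotient.out_eq _)
    obtain ⟨k, hk⟩ := (MulAction.orbitRel ρ.ker V).symm h1
    exact ⟨k, hk⟩
  choose c hc using hb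
  refine ⟨c, fun k v => ?_⟩
  have hbk : b ((k : G) • v) = b v := by
    show (Quotient.mk (MulAction.orbitRel ρ.ker V) _).out = _
    congr 1
    exact Quotient.sound ⟨k, rfl⟩
  have h1 : ((c ((k : G) • v) : ρ.ker) : G) • b v = ((k : G) • v) := by
    have := hc ((k : G) • v)
    rw [hbk] at this
    exact this
  have h2 : ((c v : ρ.ker) : G) • b v = v := hc v
  have h3 : (((k * c v : ρ.ker) : G)⁻¹ * ((c ((k : G) • v) : ρ.ker) : G)) • b v = b v := by
    rw [mul_smul, h1, inv_smul_eq_iff, Subgroup.coe_mul, mul_smul, h2]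
  have h4 : ((k * c v : ρ.ker) : G)⁻¹ * ((c ((k : G) • v) : ρ.ker) : G) = 1 := by
    refine hρ _ _ h3 ?_
    exact (ρ.ker.mul_mem (ρ.ker.inv_mem (k * c v).2) (c ((k : G) • v)).2)
  apply Subtype.ext
  exact (inv_mul_eq_one.1 h4).symm

/-- the retraction of the free group on the darts to the kernel -/
theorem exists_retr (hinv : ∀ (g : G) (v w : V), T.Adj v w → ¬ (g • v = w ∧ g • w = v))
    (c : V → ρ.ker) (hc : ∀ (k : ρ.ker) (v : V), c ((k : G) • v) = k * c v) :
    ∃ θ : FreeGroup (Ind T ρ) →* ρ.ker, ∀ (v w : V) (h : T.Adj v w),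
      θ (yy ρ h) = (c v)⁻¹ * c w := by
  classical
  let _ : LinearOrder (Ind T ρ) := linearOrderOfSTO WellOrderingRel
  let P : Ind T ρ → Prop := fun x => ∃ (v w : V) (h : T.Adj v w), x = dt T ρ v w h ∧
    dt T ρ v w h < dt T ρ w v h.symm
  let m : Ind T ρ → ρ.ker := fun x => if h : P x then
    (c h.choose)⁻¹ * c h.choose_spec.choose else 1
  have hm1 : ∀ (v w : V) (h : T.Adj v w), dt T ρ v w h < dt T ρ w v h.symm →
      m (dt T ρ v w h) = (c v)⁻¹ * c w := by
    intro v w h hlt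
    have hP : P (dt T ρ v w h) := ⟨v, w, h, rfl, hlt⟩
    show (if h' : P (dt T ρ v w h) then _ else _) = _
    rw [dif_pos hP]
    obtain ⟨h1, h2, _⟩ := hP.choose_spec.choose_spec
    obtain ⟨γ, h3, h4, h5⟩ := (dt_eq_iff T ρ _ _ _ _ h h1).1 h2
    have e1 : c hP.choose = (⟨γ, h3⟩ : ρ.ker) * c v := by
      rw [← hc ⟨γ, h3⟩ v]
      exact congrArg c h4
    have e2 : c hP.choose_spec.choose = (⟨γ, h3⟩ : ρ.ker) * c w := by
      rw [← hc ⟨γ, h3⟩ w]
      exact congrArg c h5
    rw [e1, e2]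
    group
  have hm2 : ∀ (v w : V) (h : T.Adj v w), dt T ρ w v h.symm < dt T ρ v w h →
      m (dt T ρ v w h) = 1 := by
    intro v w h hlt
    show (if h' : P (dt T ρ v w h) then _ else _) = _
    rw [dif_neg]
    rintro ⟨v', w', h', h1, h2⟩
    obtain ⟨γ, h3, h4, h5⟩ := (dt_eq_iff T ρ _ _ _ _ h h').1 h1
    have h6 : dt T ρ w v h.symm = dt T ρ w' v' h'.symm :=
      (dt_eq_iff T ρ _ _ _ _ h.symm h'.symm).2 ⟨γ, h3, h5, h4⟩
    rw [← h1, ← h6] at h2
    exact lt_asymm hlt h2
  refine ⟨FreeGroup.lift m, fun v w h => ?_⟩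
  rw [yy, map_mul, map_inv, FreeGroup.lift_apply_of, FreeGroup.lift_apply_of]
  rcases lt_trichotomy (dt T ρ v w h) (dt T ρ w v h.symm) with h1 | h1 | h1
  · rw [hm1 v w h h1, hm2 w v h.symm h1, inv_one, mul_one]
  · exfalso
    obtain ⟨γ, _, h3, h4⟩ := (dt_eq_iff T ρ _ _ _ _ h h.symm).1 h1
    exact hinv γ v w h ⟨h3.symm, h4.symm⟩
  · rw [hm2 v w h h1, hm1 w v h.symm h1]
    group

/-- **groups acting on trees** -/
theorem tree_mem (hC : ClosedE C) (hW : ∀ n : ℕ, C (RF W (Fin n))) (hQ : C Q)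
    (hT : T.IsTree) (hadj : ∀ (g : G) (v w : V), T.Adj v w → T.Adj (g • v) (g • w))
    (hinv : ∀ (g : G) (v w : V), T.Adj v w → ¬ (g • v = w ∧ g • w = v))
    (hρ : ∀ (g : G) (v : V), g • v = v → ρ g = 1 → g = 1) :
    C (G ⧸ verbIn W ρ.ker) := by
  obtain ⟨c, hc⟩ := exists_trans ρ hρ
  obtain ⟨θ, hθ⟩ := exists_retr (T := T) ρ hinv c hc
  have hne : Nonempty V := hT.connected.nonempty
  obtain ⟨v⟩ := hne
  have hwalk : ∀ {a b : V} (p : T.Walk a b), θ (wd ρ p) = (c a)⁻¹ * c b := by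
    intro a b p
    induction p with
    | nil => rw [wd_nil, map_one, inv_mul_cancel]
    | cons h p ih => rw [wd_cons, map_mul, ih, hθ]; group
  refine verb_mem hC hW hQ ρ (fun g => wd ρ (tp hT v (g • v)))
    (fun g h => cocycle ρ hT hadj v g h) θ (c v) ?_
  intro k
  rw [hwalk, hc]
  group

end Tree

section Free

/-- the free `Q`-set on `B` -/
structure QB (Q B : Type) where
  /-- the group element -/
  q : Q
  /-- the generator -/
  b : B

instance (Q B : Type) [Group Q] : MulAction Q (QB Q B) where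
  smul g x := ⟨g * x.q, x.b⟩
  one_smul x := by
    show QB.mk (1 * x.q) x.b = x
    rw [one_mul]
  mul_smul g h x := by
    show QB.mk (g * h * x.q) x.b = QB.mk (g * (h * x.q)) x.b
    rw [mul_assoc]

/-- **free groups** -/
theorem free_mem (hC : ClosedE C) (hW : ∀ n : ℕ, C (RF W (Fin n))) {B Q : Type} [Group Q]
    (hQ : C Q) (ρ : FreeGroup B →* Q) : C (FreeGroup B ⧸ verbIn W ρ.ker) := by
  classical
  let α : Q →* MulAut (FreeGroup (QB Q B)) := Pool.Agent.Y110.FJ.permAut (QB Q B) Q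
  let Φ : FreeGroup B →* FreeGroup (QB Q B) ⋊[α] Q :=
    FreeGroup.lift fun b => ⟨FreeGroup.of ⟨1, b⟩, ρ (FreeGroup.of b)⟩
  have hright : ∀ x, (Φ x).right = ρ x := by
    intro x
    have : SemidirectProduct.rightHom.comp Φ = ρ := by
      apply FreeGroup.ext_hom
      intro b
      rw [MonoidHom.comp_apply, FreeGroup.lift_apply_of]
      rfl
    exact DFunLike.congr_fun this x
  have hact : ∀ (q : Q) (x : FreeGroup (QB Q B)), α q x = FreeGroup.map (fun y => q • y) x :=
    fun q x => rfl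
  -- the section
  obtain ⟨s, hs, hs1⟩ : ∃ s : Q → FreeGroup B, (∀ q ∈ ρ.range, ρ (s q) = q) ∧ s 1 = 1 := by
    refine ⟨fun q => if q = 1 then 1 else if h : q ∈ ρ.range then h.choose else 1, ?_, by simp⟩
    intro q hq
    by_cases h1 : q = 1
    · simp [h1]
    · simp only [h1, if_false, dif_pos hq]
      exact hq.choose_spec
  let m : QB Q B → ρ.ker := fun y => if h : y.q ∈ ρ.range then
    ⟨s y.q * FreeGroup.of y.b * (s (y.q * ρ (FreeGroup.of y.b)))⁻¹, by
      rw [MonoidHom.mem_ker, map_mul, map_mul, map_inv, hs _ h,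
        hs _ (ρ.range.mul_mem h ⟨_, rfl⟩)]
      group⟩ else 1
  let θ : FreeGroup (QB Q B) →* ρ.ker := FreeGroup.lift m
  have hof : ∀ (b : B) (q : Q), q ∈ ρ.range →
      ((θ (α q (Φ (FreeGroup.of b)).left) : ρ.ker) : FreeGroup B) =
        s q * FreeGroup.of b * (s (q * ρ (FreeGroup.of b)))⁻¹ := by
    intro b q hq
    have h1 : (Φ (FreeGroup.of b)).left = FreeGroup.of ⟨1, b⟩ := by
      show (FreeGroup.lift _ _ : FreeGroup (QB Q B) ⋊[α] Q).left = _
      rw [FreeGroup.lift_apply_of]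
    rw [h1, hact, FreeGroup.map.of]
    show ((FreeGroup.lift m (FreeGroup.of (q • (⟨1, b⟩ : QB Q B))) : ρ.ker) : FreeGroup B) = _
    rw [FreeGroup.lift_apply_of]
    have h2 : q • (⟨1, b⟩ : QB Q B) = ⟨q, b⟩ := by
      show QB.mk (q * 1) b = _
      rw [mul_one]
    rw [h2]
    show ((if h : q ∈ ρ.range then _ else _ : ρ.ker) : FreeGroup B) = _
    rw [dif_pos hq]
  have hinv : ∀ x : FreeGroup B, (Φ x⁻¹).left = (α (ρ x)⁻¹ (Φ x).left)⁻¹ := by
    intro x
    rw [map_inv, SemidirectProduct.inv_left, hright, map_inv]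
  have hmul : ∀ x y : FreeGroup B, (Φ (x * y)).left = (Φ x).left * α (ρ x) (Φ y).left := by
    intro x y
    rw [map_mul, SemidirectProduct.mul_left, hright]
  have key : ∀ (x : FreeGroup B) (q : Q), q ∈ ρ.range →
      ((θ (α q (Φ x).left) : ρ.ker) : FreeGroup B) = s q * x * (s (q * ρ x))⁻¹ := by
    intro x
    induction x using FreeGroup.induction_on with
    | C1 =>
      intro q _
      rw [map_one]
      show ((θ (α q 1) : ρ.ker) : FreeGroup B) = _
      rw [map_one, map_one, map_one]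
      simp
    | of b => exact hof b
    | inv_of b ih =>
      intro q hq
      rw [hinv, map_inv, map_inv, ← MulAut.mul_apply, ← map_mul, Subgroup.coe_inv,
        hof b (q * (ρ (FreeGroup.of b))⁻¹)
          (ρ.range.mul_mem hq (ρ.range.inv_mem ⟨_, rfl⟩)), map_inv, inv_mul_cancel_right]
      group
    | mul x y ihx ihy =>
      intro q hq
      rw [hmul, map_mul, map_mul, Subgroup.coe_mul, ihx q hq, ← MulAut.mul_apply, ← map_mul,
        ihy (q * ρ x) (ρ.range.mul_mem hq ⟨_, rfl⟩), map_mul, mul_assoc q]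
      group
  refine verb_mem hC hW hQ ρ (fun g => (Φ g).left) (fun g h => hmul g h) θ 1 ?_
  intro k
  apply Subtype.ext
  have h1 := key k 1 ρ.range.one_mem
  have h2 : ρ k = 1 := k.2
  rw [h2, hs1, map_one, mul_one, hs1] at h1
  simpa using h1

end Free

end Q9.FJV
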