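import Pool.Agent.Q30.FJ.T1

/-!
# Verbal subgroups and relatively free groups in classes of Farrell-Jones type
-/

set_option autoImplicit false

namespace Q9.FJV

open Pool.Agent.Y110.FJ (ClosedE)
open Pool.Agent.Y462.SS (Closed)

/-- the verbal subgroup of `G` for the set of words `W`: it is generated by the values of the words
of `W` in `G` -/
def verb (W : Set (FreeGroup ℕ)) (G : Type) [Group G] : Subgroup G :=
  Subgroup.closure {g | ∃ w ∈ W, ∃ f : FreeGroup ℕ →* G, f w = g}

variable {W : Set (FreeGroup ℕ)}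

theorem verb_le {G H : Type} [Group G] [Group H] (φ : G →* H) :
    verb W G ≤ (verb W H).comap φ := by
  rw [verb, Subgroup.closure_le]
  rintro g ⟨w, hw, f, rfl⟩
  exact Subgroup.subset_closure ⟨w, hw, φ.comp f, rfl⟩

theorem verb_map {G H : Type} [Group G] [Group H] (φ : G →* H) {x : G} (hx : x ∈ verb W G) :
    φ x ∈ verb W H := verb_le φ hx

instance verb_normal (G : Type) [Group G] : (verb W G).Normal :=
  ⟨fun _ hn g => verb_map (MulAut.conj g).toMonoidHom hn⟩

/-- the verbal subgroup of a subgroup `K` of `G`, as a subgroup of `G` -/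
def verbIn (W : Set (FreeGroup ℕ)) {G : Type} [Group G] (K : Subgroup G) : Subgroup G :=
  (verb W K).map K.subtype

theorem verbIn_le {G : Type} [Group G] (K : Subgroup G) : verbIn W K ≤ K := by
  rintro _ ⟨x, _, rfl⟩
  exact x.2

instance verbIn_normal {G : Type} [Group G] (K : Subgroup G) [K.Normal] :
    (verbIn W K).Normal := by
  constructor
  rintro _ ⟨x, hx, rfl⟩ g
  exact ⟨MulAut.conjNormal g x, verb_map (MulAut.conjNormal g : MulAut K).toMonoidHom hx,
    MulAut.conjNormal_apply g x⟩

/-- the relatively free group on `X` of the variety of groups with the laws `W` -/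
abbrev RF (W : Set (FreeGroup ℕ)) (X : Type) : Type := FreeGroup X ⧸ verb W (FreeGroup X)

/-- homomorphisms of relatively free groups -/
def rmap {X Y : Type} (φ : FreeGroup X →* FreeGroup Y) : RF W X →* RF W Y :=
  QuotientGroup.map _ _ φ (verb_le φ)

theorem rmap_mk {X Y : Type} (φ : FreeGroup X →* FreeGroup Y) (x : FreeGroup X) :
    (rmap φ (x : RF W X) : RF W Y) = (φ x : RF W Y) := rfl

/-- verbal subgroups die in relatively free groups -/
theorem eq_one_of_verb {G X : Type} [Group G] (φ : G →* RF W X) {x : G} (hx : x ∈ verb W G) :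
    φ x = 1 := by
  have h1 : φ x ∈ verb W (RF W X) := verb_map φ hx
  have h2 : verb W (RF W X) ≤ ⊥ := by
    refine (Subgroup.closure_le _).2 ?_
    rintro g ⟨w, hw, f, rfl⟩
    obtain ⟨f', hf'⟩ : ∃ f' : FreeGroup ℕ →* FreeGroup X,
        (QuotientGroup.mk' (verb W (FreeGroup X))).comp f' = f := by
      refine ⟨FreeGroup.lift fun n => (f (FreeGroup.of n)).out, ?_⟩
      apply FreeGroup.ext_hom
      intro n
      rw [MonoidHom.comp_apply, FreeGroup.lift_apply_of]
      exact Quotient.out_eq _
    rw [← hf']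
    show (QuotientGroup.mk' (verb W (FreeGroup X))) (f' w) = 1
    rw [QuotientGroup.mk'_apply, QuotientGroup.eq_one_iff]
    exact Subgroup.subset_closure ⟨w, hw, f', rfl⟩
  exact h2 h1

/-- the action of the symmetric group on a relatively free group -/
def ract (W : Set (FreeGroup ℕ)) (X : Type) : Equiv.Perm X →* MulAut (RF W X) where
  toFun σ :=
    { toFun := rmap (FreeGroup.map σ)
      invFun := rmap (FreeGroup.map σ.symm)
      left_inv := by
        intro x
        obtain ⟨x, rfl⟩ := QuotientGroup.mk_surjective x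
        rw [rmap_mk, rmap_mk, FreeGroup.map.comp]
        simp
      right_inv := by
        intro x
        obtain ⟨x, rfl⟩ := QuotientGroup.mk_surjective x
        rw [rmap_mk, rmap_mk, FreeGroup.map.comp]
        simp
      map_mul' := fun x y => map_mul _ x y }
  map_one' := by
    ext x
    obtain ⟨x, rfl⟩ := QuotientGroup.mk_surjective x
    show rmap (FreeGroup.map _) (x : RF W X) = _
    rw [rmap_mk]
    exact congrArg _ (FreeGroup.map.id x)
  map_mul' σ τ := by
    ext x
    obtain ⟨x, rfl⟩ := QuotientGroup.mk_surjective x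
    rw [MulAut.mul_apply]
    show rmap (FreeGroup.map _) (x : RF W X) =
      rmap (FreeGroup.map σ) (rmap (FreeGroup.map τ) (x : RF W X))
    rw [rmap_mk, rmap_mk, rmap_mk, FreeGroup.map.comp]
    rfl

theorem ract_mk {X : Type} (σ : Equiv.Perm X) (x : FreeGroup X) :
    ract W X σ (x : RF W X) = ((FreeGroup.map σ x : FreeGroup X) : RF W X) := rfl

/-- the dependence on `X` is finitary -/
theorem ract_fin {X : Type} (n : RF W X) : ∃ S : Set X, S.Finite ∧ ∀ π : Equiv.Perm X,
    (∀ s ∈ S, π s = s) → ract W X π n = n := by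
  obtain ⟨x, rfl⟩ := QuotientGroup.mk_surjective n
  have key : ∃ S : Set X, S.Finite ∧ ∀ π : Equiv.Perm X, (∀ s ∈ S, π s = s) →
      FreeGroup.map π x = x := by
    induction x using FreeGroup.induction_on with
    | C1 => exact ⟨∅, Set.finite_empty, fun π _ => map_one _⟩
    | of a =>
      exact ⟨{a}, Set.finite_singleton a, fun π h => by rw [FreeGroup.map.of, h a rfl]⟩
    | inv_of a ih =>
      obtain ⟨S, hS, h⟩ := ih
      exact ⟨S, hS, fun π hπ => by rw [map_inv, h π hπ]⟩
    | mul a b iha ihb =>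
      obtain ⟨S, hS, h⟩ := iha
      obtain ⟨S', hS', h'⟩ := ihb
      exact ⟨S ∪ S', hS.union hS', fun π hπ => by
        rw [map_mul, h π fun s hs => hπ s (Or.inl hs), h' π fun s hs => hπ s (Or.inr hs)]⟩
  obtain ⟨S, hS, h⟩ := key
  exact ⟨S, hS, fun π hπ => by rw [ract_mk, h π hπ]⟩

/-- an injective map of sets gives an injective homomorphism -/
theorem rmap_inj {X Y : Type} (i : X → Y) (hi : Function.Injective i) :
    Function.Injective (rmap (W := W) (FreeGroup.map i)) := by
  classical
  intro x y hxy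
  obtain ⟨x, rfl⟩ := QuotientGroup.mk_surjective x
  obtain ⟨y, rfl⟩ := QuotientGroup.mk_surjective y
  rw [rmap_mk, rmap_mk] at hxy
  obtain ⟨r, hr⟩ : ∃ r : FreeGroup Y →* FreeGroup X, r.comp (FreeGroup.map i) = MonoidHom.id _ := by
    refine ⟨FreeGroup.lift fun y => if h : ∃ x, i x = y then FreeGroup.of h.choose else 1, ?_⟩
    apply FreeGroup.ext_hom
    intro a
    rw [MonoidHom.comp_apply, FreeGroup.map.of, FreeGroup.lift_apply_of]
    have h : ∃ x, i x = i a := ⟨a, rfl⟩
    rw [dif_pos h, hi h.choose_spec]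
    rfl
  have h1 := congrArg (rmap (W := W) r) hxy
  rw [rmap_mk, rmap_mk] at h1
  have h2 : ∀ z, r (FreeGroup.map i z) = z := fun z => DFunLike.congr_fun hr z
  rwa [h2, h2] at h1

variable {C : ∀ (G : Type) [Group G], Prop}

/-- relatively free groups of any rank -/
theorem rf_mem (hC : Closed C) (hW : ∀ n : ℕ, C (RF W (Fin n))) (X : Type) : C (RF W X) := by
  classical
  refine Pool.Agent.Y430.SS.of_directed hC (RF W X) (Finset X)
    (fun i j => ⟨i ∪ j, Finset.subset_union_left, Finset.subset_union_right⟩)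
    (fun s => (rmap (W := W) (FreeGroup.map (Subtype.val : s → X))).range) ?_ ?_ ?_
  · rintro s t hst _ ⟨x, rfl⟩
    refine ⟨rmap (FreeGroup.map fun a : s => (⟨a.1, hst a.2⟩ : t)) x, ?_⟩
    obtain ⟨x, rfl⟩ := QuotientGroup.mk_surjective x
    rw [rmap_mk, rmap_mk, rmap_mk, FreeGroup.map.comp]
    rfl
  · intro g
    obtain ⟨x, rfl⟩ := QuotientGroup.mk_surjective g
    have key : ∃ s : Finset X, x ∈ (FreeGroup.map (Subtype.val : s → X)).range := by
      have hmono : ∀ {s t : Finset X}, s ⊆ t → ∀ {y : FreeGroup X},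
          y ∈ (FreeGroup.map (Subtype.val : s → X)).range →
          y ∈ (FreeGroup.map (Subtype.val : t → X)).range := by
        rintro s t hst _ ⟨z, rfl⟩
        refine ⟨FreeGroup.map (fun a : s => (⟨a.1, hst a.2⟩ : t)) z, ?_⟩
        rw [FreeGroup.map.comp]
        rfl
      induction x using FreeGroup.induction_on with
      | C1 => exact ⟨∅, one_mem _⟩
      | of a =>
        exact ⟨{a}, FreeGroup.of ⟨a, Finset.mem_singleton_self a⟩, FreeGroup.map.of⟩
      | inv_of a ih =>
        obtain ⟨s, hs⟩ := ih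
        exact ⟨s, inv_mem hs⟩
      | mul a b iha ihb =>
        obtain ⟨s, hs⟩ := iha
        obtain ⟨t, ht⟩ := ihb
        exact ⟨s ∪ t, mul_mem (hmono Finset.subset_union_left hs)
          (hmono Finset.subset_union_right ht)⟩
    obtain ⟨s, z, hz⟩ := key
    exact ⟨s, ⟨(z : RF W s), by rw [rmap_mk, hz]⟩⟩
  · intro s
    have h1 : C (RF W s) := by
      refine hC.of_injective _ _ (rmap (W := W) (FreeGroup.map s.equivFin))
        (rmap_inj _ s.equivFin.injective) (hW _)
    exact hC.of_injective _ _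
      (MonoidHom.ofInjective (rmap_inj (W := W) _ Subtype.val_injective)).symm.toMonoidHom
      (MonoidHom.ofInjective (rmap_inj (W := W) _ Subtype.val_injective)).symm.injective h1

/-- **main lemma**: a group `G` with a homomorphism `ρ` to `Q` in the class and a cocycle `κ` with
values in a free group on a `Q`-set, for which the free group retracts to the kernel of `ρ` -/
theorem verb_mem (hC : ClosedE C) (hW : ∀ n : ℕ, C (RF W (Fin n))) {G Q X : Type} [Group G]
    [Group Q] [MulAction Q X] (hQ : C Q) (ρ : G →* Q) (κ : G → FreeGroup X)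
    (hκ : ∀ g h, κ (g * h) = κ g * FreeGroup.map (fun x => ρ g • x) (κ h))
    (θ : FreeGroup X →* ρ.ker) (c : ρ.ker) (hθ : ∀ k : ρ.ker, θ (κ k) = c⁻¹ * k * c) :
    C (G ⧸ verbIn W ρ.ker) := by
  have hL : C (RF W X ⋊[(ract W X).comp (MulAction.toPermHom Q X)] Q) :=
    Q30.FJ.nom C hC X (RF W X) Q (ract W X) (MulAction.toPermHom Q X) ract_fin
      (rf_mem hC.base hW X) hQ
  let Φ : G →* RF W X ⋊[(ract W X).comp (MulAction.toPermHom Q X)] Q :=
    MonoidHom.mk' (fun g => ⟨(κ g : RF W X), ρ g⟩) (by
      intro g h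
      apply SemidirectProduct.ext
      · show ((κ (g * h) : FreeGroup X) : RF W X) = _
        rw [hκ]
        rfl
      · exact map_mul ρ g h)
  have hle : verbIn W ρ.ker ≤ Φ.ker := by
    rintro _ ⟨x, hx, rfl⟩
    let φ : ρ.ker →* RF W X := MonoidHom.mk' (fun k => (κ k : RF W X)) (by
      intro k l
      have hk : ρ k = 1 := k.2
      show ((κ ((k : G) * l) : FreeGroup X) : RF W X) = _
      rw [hκ, hk]
      have : (fun x : X => (1 : Q) • x) = id := by
        funext x
        exact one_smul Q x
      rw [this, FreeGroup.map.id]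
      rfl)
    have h1 : φ x = 1 := eq_one_of_verb φ hx
    rw [MonoidHom.mem_ker]
    apply SemidirectProduct.ext
    · exact h1
    · exact x.2
  have hker : ∀ g : G, Φ g = 1 → g ∈ verbIn W ρ.ker := by
    intro g hg
    have h1 : ((κ g : FreeGroup X) : RF W X) = 1 := congrArg SemidirectProduct.left hg
    have h2 : ρ g = 1 := congrArg SemidirectProduct.right hg
    rw [QuotientGroup.eq_one_iff] at h1
    have h3 : θ (κ g) ∈ verb W ρ.ker := verb_map θ h1
    have h4 := hθ ⟨g, h2⟩
    refine ⟨⟨g, h2⟩, ?_, rfl⟩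
    have h5 : (⟨g, h2⟩ : ρ.ker) = c * θ (κ g) * c⁻¹ := by
      rw [h4]
      group
    rw [h5]
    exact (verb_normal (W := W) ρ.ker).conj_mem _ h3 c
  refine hC.base.of_injective _ _ (QuotientGroup.lift (verbIn W ρ.ker) Φ hle) ?_ hL
  rw [injective_iff_map_eq_one]
  intro x hx
  obtain ⟨g, rfl⟩ := QuotientGroup.mk_surjective x
  rw [QuotientGroup.eq_one_iff]
  exact hker g hx

end Q9.FJV
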